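import Pool.Agent.Lib.MP_23eee6_gt.SDisc

set_option autoImplicit false

namespace Pool.Agent.Results.MP_23eee6_gt.Classification

open UpperHalfPlane Filter Topology MatrixGroups Pool.Agent.Lib.MP_23eee6_gt.Rig

/-- The metric definition of quasiconformality: the linear dilatation is bounded. -/
def IsQC (w : ℍ ≃ₜ ℍ) : Prop :=
  ∃ K : ℝ, ∀ z : ℍ, ∀ᶠ t in 𝓝[>] (0 : ℝ), ∀ u v : ℍ, ‖(u : ℂ) - z‖ = t → ‖(v : ℂ) - z‖ = t →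
    ‖(w u : ℂ) - w z‖ ≤ K * ‖(w v : ℂ) - w z‖

/-- `w` is a quasiconformal homeomorphism with boundary values `h` on the real line that
conjugates `Γ` onto the discrete group `Γ'`. -/
def IsDeformation (Γ Γ' : Subgroup SL(2, ℝ)) (w : ℍ ≃ₜ ℍ) (h : ℝ ≃ₜ ℝ) : Prop :=
  IsQC w ∧
  (∀ x : ℝ, Tendsto (fun z : ℍ => (w z : ℂ)) (comap (fun z : ℍ => (z : ℂ)) (𝓝 (x : ℂ)))
    (𝓝 ((h x : ℝ) : ℂ))) ∧
  DiscreteTopology Γ' ∧
  (∀ g ∈ Γ, ∃ g' ∈ Γ', ∀ z : ℍ, w (g • z) = g' • w z) ∧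
  ∀ g' ∈ Γ', ∃ g ∈ Γ, ∀ z : ℍ, w (g • z) = g' • w z

/-- The Moebius maps fixing infinity. -/
def IsAffine (h : ℝ → ℝ) : Prop := ∃ p q : ℝ, ∀ x : ℝ, h x = p * x + q

/-- Increasing and quasisymmetric. -/
def IsQS (h : ℝ → ℝ) : Prop :=
  StrictMono h ∧ ∃ M : ℝ, ∀ x t : ℝ, 0 < t →
    h (x + t) - h x ≤ M * (h x - h (x - t)) ∧ h x - h (x - t) ≤ M * (h (x + t) - h x)

/-- The translation length of `g` for the hyperbolic metric. -/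
noncomputable def len (g : SL(2, ℝ)) : ℝ := ⨅ z : ℍ, dist z (g • z)

theorem result (Γ : Subgroup SL(2, ℝ)) (hd : DiscreteTopology Γ)
    (ht : ∀ g ∈ Γ, IsOfFinOrder g → g = 1 ∨ g = -1) :
    List.TFAE [
      ¬ IsConservative Γ,
      ∃ (Γ' : Subgroup SL(2, ℝ)) (w : ℍ ≃ₜ ℍ) (h : ℝ ≃ₜ ℝ), IsDeformation Γ Γ' w h ∧ ¬ IsAffine h ∧
        ∀ g ∈ Γ, ∀ g' : SL(2, ℝ), (∀ z : ℍ, w (g • z) = g' • w z) → len g' ≤ len g,
      ∃ (Γ' : Subgroup SL(2, ℝ)) (w : ℍ ≃ₜ ℍ) (h : ℝ ≃ₜ ℝ), IsDeformation Γ Γ' w h ∧ ¬ IsAffine h ∧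
        ∀ g ∈ Γ, IsSimple Γ g → ∀ g' : SL(2, ℝ), (∀ z : ℍ, w (g • z) = g' • w z) → len g' ≤ len g,
      ∃ h : ℝ ≃ₜ ℝ, IsQS h ∧ ¬ IsAffine h ∧
        ∀ g ∈ Γ, ∃ g' : SL(2, ℝ), Conj h g g' ∧ (IsSimple Γ g → |tr g'| ≤ |tr g|),
      ∃ h : ℝ ≃ₜ ℝ, ¬ IsAffine h ∧
        ∀ g ∈ Γ, ∃ g' : SL(2, ℝ), Conj h g g' ∧ (IsSimple Γ g → |tr g'| ≤ |tr g|)] := by
  have hF := finB_of_discrete Γ hd
  have h2 : ∀ k ∈ Γ, 2 ≤ |tr k| := fun k hk => two_le_tr hF ht hk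
  tfae_have 1 → 2 := by
    intro hc
    obtain ⟨w, h, w1, w2, w3, w4⟩ := exists_def hF h2 hc
    refine ⟨conjGroup Γ w, w, h, ⟨⟨32, Pool.Agent.Lib.MP_23eee6_gt.Tile.qc_of_bilip w w1⟩,
      fun x => tendsto_comap_iff.1 (w2 x), conjGroup_discrete hF w fun z u => (w1 z u).2,
      fun g hg => ?_, fun g' hg' => hg'⟩, w3, fun g _ g' e => len_le (fun z u => (w1 z u).1) e⟩
    obtain ⟨g', e⟩ := w4 g hg
    exact ⟨g', ⟨g, hg, e⟩, e⟩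
  tfae_have 2 → 3 := fun ⟨Γ', w, h, a, b, c⟩ => ⟨Γ', w, h, a, b, fun g hg _ => c g hg⟩
  tfae_have 3 → 5 := by
    rintro ⟨Γ', w, h, ⟨-, a2, -, a4, -⟩, b, c⟩
    refine ⟨h, b, fun g hg => ?_⟩
    obtain ⟨g', -, e⟩ := a4 g hg
    exact ⟨g', conj_of_lim (fun x => tendsto_comap_iff.2 (a2 x)) e,
      fun hs => tr_le_of_len hs.1 (c g hg hs g' e)⟩
  tfae_have 5 → 1 := fun ⟨h, b, c⟩ hc => b (rigid hd ht hc h c)
  tfae_have 4 → 5 := fun ⟨h, _, b, c⟩ => ⟨h, b, c⟩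
  tfae_have 1 → 4 := by
    intro hc
    obtain ⟨w, h, w1, w2, w3, w4⟩ := exists_def hF h2 hc
    have hb : Bil w := fun z u =>
      ⟨(w1 z u).1.trans (by linarith [dist_nonneg (x := z) (y := u)]), (w1 z u).2⟩
    have key : ∀ g ∈ Γ, ∃ g' : SL(2, ℝ), Conj h g g' ∧ (IsSimple Γ g → |tr g'| ≤ |tr g|) := by
      intro g hg
      obtain ⟨g', e⟩ := w4 g hg
      exact ⟨g', conj_of_lim w2 e,
        fun hs => tr_le_of_len hs.1 (len_le (fun z u => (w1 z u).1) e)⟩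
    rcases h.continuous.strictMono_of_inj h.injective with hm | hm
    · refine ⟨h, ⟨hm, ?_⟩, w3, key⟩
      simpa using qs_of_bil w hb w2 (σ := 1) (by norm_num) (by simpa using hm)
    · refine ⟨h.trans (Homeomorph.neg ℝ), ⟨hm.neg, ?_⟩, ?_, fun g hg => ?_⟩
      · have := qs_of_bil w hb w2 (σ := -1) (by norm_num) (by simpa using hm.neg)
        simp only [neg_one_mul] at this
        exact this
      · rintro ⟨p, q, e⟩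
        exact w3 ⟨-p, -q, fun x => by
          have : -h x = p * x + q := e x
          linarith⟩
      · obtain ⟨g', c, t⟩ := key g hg
        obtain ⟨k, c', t'⟩ := conj_refl c
        exact ⟨k, c', t' ▸ t⟩
  tfae_finish

end Pool.Agent.Results.MP_23eee6_gt.Classification
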