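import Pool.Agent.Lib.MP_23eee6_gt.QCMap

set_option autoImplicit false

namespace Pool.Agent.Results.MP_23eee6_gt.Shrinking

open UpperHalfPlane Filter Topology MatrixGroups

/-- The limit set of `Γ` is the whole circle at infinity: the orbit of `i` accumulates at every
real point (hence also at infinity, the limit set being closed). -/
def IsFirstKind (Γ : Subgroup SL(2, ℝ)) : Prop :=
  ∀ x : ℝ, (x : ℂ) ∈ closure {ζ : ℂ | ∃ g ∈ Γ, ζ = ((g • UpperHalfPlane.I : ℍ) : ℂ)}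

/-- The metric definition of quasiconformality: the linear dilatation is bounded. -/
def IsQuasiconformal (w : ℍ ≃ₜ ℍ) : Prop :=
  ∃ K : ℝ, ∀ z : ℍ, ∀ᶠ t in 𝓝[>] (0 : ℝ), ∀ u v : ℍ, ‖(u : ℂ) - z‖ = t → ‖(v : ℂ) - z‖ = t →
    ‖(w u : ℂ) - w z‖ ≤ K * ‖(w v : ℂ) - w z‖

/-- The boundary values of `w` on the real line are those of a real Moebius transformation
(of either orientation). -/
def IsTrivial (w : ℍ ≃ₜ ℍ) : Prop :=
  ∃ a b c d : ℝ, a * d - b * c ≠ 0 ∧ ∀ x : ℝ, c * x + d ≠ 0 →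
    Tendsto (fun z : ℍ => (w z : ℂ)) (comap (fun z : ℍ => (z : ℂ)) (𝓝 (x : ℂ)))
      (𝓝 (((a * x + b) / (c * x + d) : ℝ) : ℂ))

/-- The translation length of `g` for the hyperbolic metric. -/
noncomputable def translationLength (g : SL(2, ℝ)) : ℝ := ⨅ z : ℍ, dist z (g • z)

open Pool.Agent.Lib.MP_23eee6_gt Pool.Agent.Lib.MP_23eee6_gt.Tile in
theorem result : ∃ (Γ Γ' : Subgroup SL(2, ℝ)) (θ : Γ ≃* Γ') (w : ℍ ≃ₜ ℍ),
    DiscreteTopology Γ ∧ (∀ g ∈ Γ, IsOfFinOrder g → g = 1) ∧ ¬ Γ.FG ∧ IsFirstKind Γ ∧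
    DiscreteTopology Γ' ∧ IsQuasiconformal w ∧
    (∀ (g : Γ) (z : ℍ), w ((g : SL(2, ℝ)) • z) = (θ g : SL(2, ℝ)) • w z) ∧
    ¬ IsTrivial w ∧
    ∀ g : Γ, translationLength (θ g) ≤ translationLength g := by
  obtain ⟨w, w1, w2, w3⟩ := exists_w sys
  have i1 : Function.Injective sys.ρ := rho_injective sys.c sys.r sys.r_pos sys.r_le sys.sep0
  have i2 : Function.Injective sys.ρ' := rho_injective sys.c' sys.r sys.r_pos sys.r_le sys.sep0'
  have heq : ∀ (g : sys.ρ.range) (z : ℍ), w ((g : SL(2, ℝ)) • z) =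
      (((MonoidHom.ofInjective i1).symm.trans (MonoidHom.ofInjective i2) g : sys.ρ'.range) :
        SL(2, ℝ)) • w z := by
    intro g z
    obtain ⟨k, rfl⟩ := (MonoidHom.ofInjective i1).surjective g
    rw [MulEquiv.trans_apply, MulEquiv.symm_apply_apply, MonoidHom.ofInjective_apply,
      MonoidHom.ofInjective_apply]
    exact w2 k z
  refine ⟨sys.ρ.range, sys.ρ'.range,
    (MonoidHom.ofInjective i1).symm.trans (MonoidHom.ofInjective i2), w,
    discrete_range sys.r_pos sys.r_le sys.sep0, ?_,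
    range_not_fg sys.c sys.r sys.r_pos sys.r_le sys.sep0, ?_,
    discrete_range sys.r_pos sys.r_le sys.sep0', ⟨32, qc_of_bilip w w3⟩, heq, ?_, fun g => ?_⟩
  · rintro g ⟨k, rfl⟩ hg
    obtain ⟨n, hn, h⟩ := isOfFinOrder_iff_pow_eq_one.1 hg
    rw [← map_pow, ← map_one sys.ρ] at h
    rw [(pow_eq_one_iff_left hn.ne').1 (i1 h), map_one]
  · intro x
    rw [Metric.mem_closure_iff]
    intro ε hε
    obtain ⟨y, hy, hl⟩ := sys.lim_dense x hε
    obtain ⟨k, hk⟩ := sys.near_of_lim hl (half_pos hε)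
    refine ⟨_, ⟨sys.ρ k, ⟨k, rfl⟩, rfl⟩, ?_⟩
    refine lt_of_le_of_lt (dist_triangle _ (y : ℂ) _) ?_
    rw [dist_eq_norm (y : ℂ), dist_comm, dist_eq_norm, ← Complex.ofReal_sub, Complex.norm_real,
      Real.norm_eq_abs, Tile.coe_smul, coe_I]
    linarith
  · rintro ⟨a, b, c, d, h1, h2⟩
    exact not_moebius sys w w1 a b c d h1 h2
  · refine le_ciInf fun z => ?_
    refine (ciInf_le ⟨0, ?_⟩ (w z)).trans ?_
    · rintro _ ⟨u, rfl⟩
      exact dist_nonneg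
    · rw [← heq]
      exact (w3 _ _).1

end Pool.Agent.Results.MP_23eee6_gt.Shrinking
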